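import Mathlib
import Pool.Agent.Q291.GW.Mean

/-!
# Bootstrap percolation on Galton-Watson trees of given mean

For every `r ≥ 2` and every offspring law without zero and with mean `b`, the critical
probability of `r`-neighbour bootstrap percolation on the tree is almost surely at least
`exp (-b/(r-1))`.  Hence `f_r^{GW}(b) ≥ exp (-b/(r-1))`.
-/

namespace Pool.Agent.Results.MP_12274d_pr.MeanLowerBound

open MeasureTheory
open scoped ENNReal
open Q291.GW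

/-- The function `f_r^{GW}(b)`: the infimum, over the offspring laws `ξ` with mean `b` and
`P(ξ = 0) = 0`, of the almost sure value of the critical probability of the tree. -/
noncomputable def fGW (r : ℕ) (b : ℝ) : EReal :=
  sInf {x : EReal | ∃ ξ : PMF ℕ, ∑' k, ξ k * (k : ℝ≥0∞) = ENNReal.ofReal b ∧ ξ 0 = 0 ∧
    ∀ᵐ ω ∂gw ξ, ((pc (tree ω) r : ℝ) : EReal) = x}

theorem result (r : ℕ) (hr : 2 ≤ r) (b : ℝ) :
    (∀ ξ : PMF ℕ, ∑' k, ξ k * (k : ℝ≥0∞) = ENNReal.ofReal b → ξ 0 = 0 →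
      ∀ᵐ ω ∂gw ξ, Real.exp (-b / (r - 1)) ≤ pc (tree ω) r) ∧
    ((Real.exp (-b / (r - 1)) : ℝ) : EReal) ≤ fGW r b := by
  have key : ∀ ξ : PMF ℕ, ∑' k, ξ k * (k : ℝ≥0∞) = ENNReal.ofReal b → ξ 0 = 0 →
      ∀ᵐ ω ∂gw ξ, Real.exp (-b / (r - 1)) ≤ pc (tree ω) r :=
    fun ξ hb h0 => mean_bound hr hb h0
  refine ⟨key, le_sInf ?_⟩
  rintro x ⟨ξ, hb, h0, hx⟩
  obtain ⟨ω, h1, h2⟩ := (hx.and (key ξ hb h0)).exists
  rw [← h1]
  exact EReal.coe_le_coe_iff.2 h2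

end Pool.Agent.Results.MP_12274d_pr.MeanLowerBound
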